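import Pool.Agent.Helper7.ST.FinG

/-!
# Bounded average stretch onto every half-size subset of the cube, in every dimension

`{-1,1}^n` is `Fin n → ℤˣ`.  There is an absolute constant `C` such that for every `n` and every
`A ⊆ {-1,1}^(n+1)` with `|A| = 2^n` there is a bijection `{-1,1}^n → A` whose average stretch (the
mean Hamming distance of the images of the two ends of a uniformly random edge) is at most `C`.
Balanced halfspaces of size `2^n` are a special case, spelled out in `balanced_halfspace`.
-/

set_option autoImplicit false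

noncomputable section

namespace Pool.Agent.Results.MP_058dd4_co.AverageStretch

open Finset

/-- The (ordered) edges of the cube `{-1,1}^n`: pairs of points at Hamming distance `1`. -/
def edges (n : ℕ) : Finset ((Fin n → ℤˣ) × (Fin n → ℤˣ)) :=
  univ.filter (fun e => hammingDist e.1 e.2 = 1)

/-- The average stretch: the mean of `d (f x) (f y)` over the edges `{x, y}` of the cube.
(Every edge is listed twice, as `(x, y)` and `(y, x)`, which does not change the mean.) -/
def avgStretch {n : ℕ} (f : (Fin n → ℤˣ) → (Fin (n + 1) → ℤˣ)) : ℝ :=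
  (∑ e ∈ edges n, (hammingDist (f e.1) (f e.2) : ℝ)) / ((edges n).card : ℝ)

/-- The balanced halfspace `{x : a₁x₁ + ⋯ + a_m x_m ≥ 0}` of `{-1,1}^m`. -/
def halfspace {m : ℕ} (a : Fin m → ℝ) : Finset (Fin m → ℤˣ) := by
  classical
  exact univ.filter (fun x => 0 ≤ ∑ i, a i * ((x i : ℤ) : ℝ))

/-! ### Signs and bits -/

/-- The bit of a sign. -/
def bit (u : ℤˣ) : Bool := decide (u = 1)

/-- The sign of a bit. -/
def sgn (b : Bool) : ℤˣ := if b then 1 else -1

theorem bit_sgn (b : Bool) : bit (sgn b) = b := by cases b <;> decide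

theorem sgn_bit (u : ℤˣ) : sgn (bit u) = u := by
  rcases Int.units_eq_one_or u with rfl | rfl <;> decide

theorem bit_neg (u : ℤˣ) : bit (-u) = !bit u := by
  rcases Int.units_eq_one_or u with rfl | rfl <;> decide

theorem bit_inj : Function.Injective bit := fun u v h => by
  rw [← sgn_bit u, h, sgn_bit]

theorem sgn_inj : Function.Injective sgn := fun u v h => by
  rw [← bit_sgn u, h, bit_sgn]

/-- The bits of a point. -/
def toB {n : ℕ} (x : Fin n → ℤˣ) : Fin n → Bool := fun i => bit (x i)

/-- The point with given bits. -/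
def toS {n : ℕ} (x : Fin n → Bool) : Fin n → ℤˣ := fun i => sgn (x i)

theorem toB_toS {n : ℕ} (x : Fin n → Bool) : toB (toS x) = x := funext fun _ => bit_sgn _

theorem toS_toB {n : ℕ} (x : Fin n → ℤˣ) : toS (toB x) = x := funext fun _ => sgn_bit _

/-- The two cubes. -/
def eqv (n : ℕ) : (Fin n → ℤˣ) ≃ (Fin n → Bool) := ⟨toB, toS, toS_toB, toB_toS⟩

theorem toB_inj (n : ℕ) : Function.Injective (toB (n := n)) := (eqv n).injective

theorem hd_toS {n : ℕ} (x y : Fin n → Bool) : hammingDist (toS x) (toS y) = hammingDist x y :=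
  hammingDist_comp (fun _ => sgn) (fun _ => sgn_inj)

theorem toB_flip {n : ℕ} (x : Fin n → ℤˣ) (i : Fin n) :
    toB (Function.update x i (-(x i))) = Function.update (toB x) i (!toB x i) := by
  funext j
  by_cases h : j = i
  · subst h
    simp [toB, bit_neg]
  · simp [toB, Function.update_of_ne h]

/-- The neighbours of a point. -/
theorem nbr {n : ℕ} (x : Fin n → ℤˣ) :
    univ.filter (fun y => hammingDist x y = 1) =
      univ.image (fun i => Function.update x i (-(x i))) := by
  ext y
  simp only [mem_filter, mem_univ, true_and, mem_image]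
  constructor
  · intro h
    unfold hammingDist at h
    rw [card_eq_one] at h
    obtain ⟨i, hi⟩ := h
    refine ⟨i, ?_⟩
    funext j
    by_cases hj : j = i
    · subst hj
      have h1 : j ∈ univ.filter (fun k => x k ≠ y k) := by rw [hi]; exact mem_singleton_self j
      rw [mem_filter] at h1
      rw [Function.update_self]
      exact (Int.units_ne_iff_eq_neg.1 h1.2.symm).symm
    · rw [Function.update_of_ne hj]
      by_contra hne
      have h1 : j ∈ univ.filter (fun k => x k ≠ y k) := by
        rw [mem_filter]; exact ⟨mem_univ _, hne⟩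
      rw [hi, mem_singleton] at h1
      exact hj h1
  · rintro ⟨i, rfl⟩
    unfold hammingDist
    rw [card_eq_one]
    refine ⟨i, ?_⟩
    ext j
    simp only [mem_filter, mem_univ, true_and, mem_singleton]
    by_cases hj : j = i
    · subst hj
      simp only [Function.update_self, iff_true]
      intro hh
      exact Int.units_ne_iff_eq_neg.2 rfl hh.symm
    · simp [hj]

theorem flip_inj {n : ℕ} (x : Fin n → ℤˣ) :
    Function.Injective (fun i => Function.update x i (-(x i))) := by
  intro i j h
  by_contra hne
  have h1 := congrFun h i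
  simp only [Function.update_self, Function.update_of_ne hne] at h1
  exact Int.units_ne_iff_eq_neg.2 rfl h1

theorem sum_edges {n : ℕ} (F : (Fin n → ℤˣ) → (Fin n → ℤˣ) → ℝ) :
    ∑ e ∈ edges n, F e.1 e.2 = ∑ x, ∑ i, F x (Function.update x i (-(x i))) := by
  unfold edges
  rw [sum_filter, Fintype.sum_prod_type]
  refine sum_congr rfl fun x _ => ?_
  rw [← sum_filter, nbr x, sum_image (fun i _ j _ h => flip_inj x h)]

theorem card_edges (n : ℕ) : ((edges n).card : ℝ) = n * 2 ^ n := by
  have h := sum_edges (n := n) (fun _ _ => 1)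
  rw [sum_const, sum_const, sum_const, card_univ, card_univ] at h
  simp only [nsmul_eq_mul, mul_one, Fintype.card_fin, Fintype.card_fun] at h
  rw [h]
  simp
  ring

/-- There is an absolute constant `C` such that for every `n` and every `A ⊆ {-1,1}^(n+1)` with
`|A| = 2^n` there is a bijection from `{-1,1}^n` onto `A` with average stretch at most `C`. -/
theorem result : ∃ C : ℝ, ∀ (n : ℕ) (A : Finset (Fin (n + 1) → ℤˣ)), A.card = 2 ^ n →
    ∃ f : (Fin n → ℤˣ) → (Fin (n + 1) → ℤˣ),
      Function.Injective f ∧ Set.range f = (A : Set (Fin (n + 1) → ℤˣ)) ∧ avgStretch f ≤ C := by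
  classical
  obtain ⟨C, hC, h⟩ := Pool.Agent.Helper7.ST.exists_stretch
  refine ⟨C, fun n A hA => ?_⟩
  obtain ⟨f, hf1, hf2, hf3⟩ := h n (A.image toB) (by
    rw [card_image_of_injective _ (toB_inj (n + 1)), hA])
  refine ⟨fun x => toS (f (toB x)), ?_, ?_, ?_⟩
  · intro x y hxy
    exact (eqv n).injective (hf1 ((eqv (n + 1)).symm.injective hxy))
  · ext z
    constructor
    · rintro ⟨x, rfl⟩
      have h1 : f (toB x) ∈ ((A.image toB : Finset _) : Set (Fin (n + 1) → Bool)) := by
        rw [← hf2]; exact Set.mem_range_self _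
      rw [mem_coe, mem_image] at h1
      obtain ⟨a, ha, hae⟩ := h1
      simp only
      rw [← hae, toS_toB]
      exact ha
    · intro hz
      have h1 : toB z ∈ Set.range f := by
        rw [hf2, mem_coe, mem_image]
        exact ⟨z, hz, rfl⟩
      obtain ⟨w, hw⟩ := h1
      refine ⟨toS w, ?_⟩
      simp only
      rw [toB_toS, hw, toS_toB]
  · unfold avgStretch
    rw [sum_edges (fun x y => (hammingDist (toS (f (toB x))) (toS (f (toB y))) : ℝ)), card_edges]
    have h1 : ∑ x : Fin n → ℤˣ, ∑ i, (hammingDist (toS (f (toB x)))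
        (toS (f (toB (Function.update x i (-(x i)))))) : ℝ) ≤ C * (n * 2 ^ n) := by
      refine le_trans (le_of_eq ?_) hf3
      rw [← Equiv.sum_comp (eqv n)]
      refine sum_congr rfl fun x _ => sum_congr rfl fun i _ => ?_
      rw [hd_toS, toB_flip]
      rfl
    rcases Nat.eq_zero_or_pos n with rfl | hn
    · simp [hC.le]
    · rw [div_le_iff₀ (by positivity)]
      exact h1

/-- Balanced halfspaces of size `2^n`. -/
theorem balanced_halfspace : ∃ C : ℝ, ∀ (n : ℕ) (a : Fin (n + 1) → ℝ),
    (halfspace a).card = 2 ^ n → ∃ f : (Fin n → ℤˣ) → (Fin (n + 1) → ℤˣ),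
      Function.Injective f ∧ Set.range f = (halfspace a : Set (Fin (n + 1) → ℤˣ)) ∧
      avgStretch f ≤ C := by
  obtain ⟨C, h⟩ := result
  exact ⟨C, fun n a ha => h n (halfspace a) ha⟩

end Pool.Agent.Results.MP_058dd4_co.AverageStretch
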